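import Pool.Agent.H30.AW.Targets
import Pool.Agent.H92.AV.TAN

/-!
# MP_70ba79_ag, board `aw_modules`, row TA2: tangent lines of an irreducible variety
-/

set_option autoImplicit false

namespace Pool.Agent.H6.AW.TA2

open MvPolynomial SC Pool.Agent.H27.LV Pool.Agent.H30.AV Pool.Agent.H30.AW Pool.Agent.H92.AV

theorem pf_TA2 : T_TA2 := by
  classical
  intro k _ _ n r Q hQ hr
  obtain ⟨s, hs, σ, h, hcard, hh1, hh2⟩ := rel Q
  choose G hG using fun j => der_E σ j (h j)
  set A := MvPolynomial (Fin n) k ⧸ Q with hA
  set F : Fin n → MvPolynomial (Fin n) k := fun j => E σ j X (Polynomial.derivative (h j)) with hF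
  set cb : s → Fin n → MvPolynomial (Fin n) k := fun b j => -E σ j X (G j b) with hcb
  set f : MvPolynomial (Fin n) k := ∏ j, F j with hf
  set e : s → Fin n → MvPolynomial (Fin n) k :=
    fun b j => cb b j * ∏ i ∈ Finset.univ.erase j, F i with he
  set zz : Fin (n + 1) → MvPolynomial (Fin n) k := Fin.cons 1 X with hzz
  set ee : s → Fin (n + 1) → MvPolynomial (Fin n) k := fun b => Fin.cons 0 (e b) with hee
  set w : Zw n → MvPolynomial s A := fun ij =>
    C (Ideal.Quotient.mk Q (zz ij.1)) * (∑ b, C (Ideal.Quotient.mk Q (ee b ij.2)) * X b) -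
    C (Ideal.Quotient.mk Q (zz ij.2)) * (∑ b, C (Ideal.Quotient.mk Q (ee b ij.1)) * X b) with hw
  have hw0 : ∀ i j, (C (Ideal.Quotient.mk Q (zz i)) *
      (∑ b, C (Ideal.Quotient.mk Q (ee b j)) * X b) : MvPolynomial s A).IsHomogeneous 1 := by
    intro i j
    have h1 : (∑ b, C (Ideal.Quotient.mk Q (ee b j)) * X b : MvPolynomial s A).IsHomogeneous 1 := by
      refine IsHomogeneous.sum _ _ _ fun b _ => ?_
      have := (isHomogeneous_C s (Ideal.Quotient.mk Q (ee b j))).mul (isHomogeneous_X A b)
      simpa using this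
    have := (isHomogeneous_C s (Ideal.Quotient.mk Q (zz i))).mul h1
    simpa using this
  have hw1 : ∀ ij, (w ij).IsHomogeneous 1 := by
    intro ij
    rw [hw]
    exact (hw0 _ _).sub (hw0 _ _)
  set φ : MvPolynomial (Zw n) k →ₐ[k] MvPolynomial s A := aeval w with hφ
  have hfQ : f ∉ Q := by
    rw [hf, hQ.prod_mem_iff]
    rintro ⟨j, -, hj⟩
    exact hh2 j hj
  refine ⟨f, RingHom.ker φ, hfQ, RingHom.ker_isPrime φ.toRingHom, ker_homog w hw1, ?_, ?_, ?_⟩
  · intro i j
    rw [RingHom.mem_ker]
    simp only [hφ, map_add, aeval_X, hw]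
    ring
  · have h1 : Algebra.trdeg k (MvPolynomial (Zw n) k ⧸ RingHom.ker φ) ≤
        Algebra.trdeg k (MvPolynomial s A) :=
      trdeg_le_of_injective (Ideal.kerLiftAlg φ) (Ideal.kerLiftAlg_injective φ)
    have h2 : Algebra.trdeg k A + Algebra.trdeg A (MvPolynomial s A) =
        Algebra.trdeg k (MvPolynomial s A) := trdeg_add_eq k A
    have h3 : Algebra.trdeg A (MvPolynomial s A) = Algebra.trdeg k A := by
      rw [MvPolynomial.trdeg_of_isDomain, Cardinal.lift_id, Cardinal.mk_fintype, hcard]
    rw [h3] at h2
    refine h1.trans ?_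
    rw [← h2]
    push_cast
    rw [two_mul]
    exact add_le_add hr hr
  · intro K _ _ D y hy hfy g hg
    have hE : ∀ (j : Fin n) (p : Polynomial (MvPolynomial s k)),
        E σ j y p = aeval y (E σ j (X : Fin n → MvPolynomial (Fin n) k) p) := by
      intro j p
      have h1 := E_map σ j (X : Fin n → MvPolynomial (Fin n) k)
        (aeval y : MvPolynomial (Fin n) k →ₐ[k] K) p
      simp only [aeval_X] at h1
      exact h1.symm
    have h0 : ∀ j, aeval y (F j) * D (y j) = ∑ b, aeval y (cb b j) * D (y (σ b)) := by
      intro j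
      have h1 := hG j K D y
      simp only [hE] at h1
      rw [hy _ (hh1 j), map_zero] at h1
      simp only [hcb, map_neg, neg_mul, Finset.sum_neg_distrib]
      linear_combination -h1
    have h2 : ∀ j, aeval y f * D (y j) = ∑ b, aeval y (e b j) * D (y (σ b)) := by
      intro j
      rw [hf, ← Finset.mul_prod_erase Finset.univ F (Finset.mem_univ j), map_mul, mul_assoc,
        mul_comm (aeval y (∏ i ∈ Finset.univ.erase j, F i)) (D (y j)), ← mul_assoc, h0 j,
        Finset.sum_mul]
      refine Finset.sum_congr rfl fun b _ => ?_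
      rw [he]
      simp only [map_mul]
      ring
    have h2' : ∀ j : Fin (n + 1), aeval y f * D (xx y j) =
        ∑ b, aeval y (ee b j) * D (y (σ b)) := by
      intro j
      refine Fin.cases ?_ (fun i => ?_) j
      · simp [hee, xx]
      · simp only [hee, xx, Fin.cons_succ]
        exact h2 i
    have h12 : ∀ j : Fin (n + 1), aeval y (zz j) = xx y j := by
      intro j
      rw [hzz, xx]
      refine Fin.cases ?_ (fun i => ?_) j
      · simp
      · simp
    let ψ0 : A →ₐ[k] K := Ideal.Quotient.liftₐ Q (aeval y) hy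
    have hψ0 : ∀ p, ψ0 (Ideal.Quotient.mk Q p) = aeval y p := fun p => rfl
    let ψ : MvPolynomial s A →+* K := eval₂Hom ψ0.toRingHom (fun b => D (y (σ b)))
    have hψ : ∀ p : MvPolynomial (Zw n) k, ψ (φ p) =
        aeval (fun ij => aeval y f * lift2 y D ij) p := by
      intro p
      have h3 : ψ.comp φ.toRingHom =
          (aeval (fun ij => aeval y f * lift2 y D ij) : MvPolynomial (Zw n) k →ₐ[k] K).toRingHom := by
        refine MvPolynomial.ringHom_ext ?_ ?_
        · intro c
          simp only [RingHom.comp_apply]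
          have h8 : φ.toRingHom (C c) = C (Ideal.Quotient.mk Q (C c)) := by
            change φ (C c) = _
            rw [hφ, aeval_C, IsScalarTower.algebraMap_apply k A (MvPolynomial s A)]
            rfl
          rw [h8]
          change ψ (C _) = _
          simp only [ψ, coe_eval₂Hom, eval₂_C]
          change ψ0 _ = _
          rw [hψ0]
          simp
        · intro ij
          simp only [RingHom.comp_apply]
          have h8 : φ.toRingHom (X ij) = w ij := aeval_X w ij
          rw [h8]
          have h9 : ∀ a : A, ψ (C a) = ψ0 a := fun a => by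
            simp only [ψ, coe_eval₂Hom, eval₂_C]; rfl
          have h10 : ∀ b : s, ψ (X b) = D (y (σ b)) := fun b => by
            simp only [ψ, coe_eval₂Hom, eval₂_X]
          have h11 : (aeval (fun ij => aeval y f * lift2 y D ij) :
              MvPolynomial (Zw n) k →ₐ[k] K).toRingHom (X ij) = aeval y f * lift2 y D ij :=
            aeval_X _ ij
          rw [h11, hw]
          simp only [map_mul, map_sub, map_sum, h9, h10, hψ0, ← h2', lift2, wed, h12]
          ring
      exact congrArg (fun q : MvPolynomial (Zw n) k →+* K => q p) h3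
    have h4 : ∀ N, aeval (lift2 y D) (homogeneousComponent N g) = 0 := by
      intro N
      have h5 : φ (homogeneousComponent N g) = 0 := ker_homog w hw1 g hg N
      have h6 := hψ (homogeneousComponent N g)
      rw [h5, map_zero, aeval_smul_homog _ _ (homogeneousComponent_isHomogeneous N g)] at h6
      rcases mul_eq_zero.mp h6.symm with h7 | h7
      · exact absurd (pow_ne_zero N hfy) (by simpa using h7)
      · exact h7
    rw [← sum_homogeneousComponent g, map_sum]
    exact Finset.sum_eq_zero fun N _ => h4 N

end Pool.Agent.H6.AW.TA2
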